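import Pool.Agent.H56.CF.Targets

set_option autoImplicit false

namespace Pool.Agent.H48.CF

open Pool.Agent.H56.CF

theorem card_bound {N : ℕ} (hN : 1 ≤ N) {Y : ℝ} (hY : 0 ≤ Y) {T : Finset ℤ}
    (h1 : ∀ d ∈ T, |(d : ℝ)| ≤ Y) (h2 : ∀ d ∈ T, ∀ d' ∈ T, (N : ℤ) ∣ d - d') :
    (T.card : ℝ) ≤ 2 * Y / N + 1 := by
  have hN' : (0 : ℝ) < N := by exact_mod_cast hN
  rcases T.eq_empty_or_nonempty with rfl | hne
  · rw [Finset.card_empty, Nat.cast_zero]
    positivity
  obtain ⟨m, hm⟩ : ∃ m, m = T.min' hne := ⟨_, rfl⟩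
  have hmT : m ∈ T := by
    rw [hm]
    exact T.min'_mem hne
  have hle : ∀ d ∈ T, m ≤ d := by
    intro d hd
    rw [hm]
    exact T.min'_le d hd
  have hk : ∀ d ∈ T, ∃ k : ℕ, d = m + N * k ∧ k ≤ ⌊2 * Y / N⌋₊ := by
    intro d hd
    obtain ⟨k, hk⟩ := h2 d hd m hmT
    have h3 : 0 ≤ k := by
      by_contra hcon
      push Not at hcon
      have h4 := hle d hd
      have h5 : (N : ℤ) * k < 0 := mul_neg_of_pos_of_neg (by exact_mod_cast hN) hcon
      omega
    obtain ⟨l, rfl⟩ := Int.eq_ofNat_of_zero_le h3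
    refine ⟨l, by linarith, ?_⟩
    apply Nat.le_floor
    rw [le_div_iff₀ hN']
    have h6 : (d : ℝ) - m = N * l := by exact_mod_cast hk
    have h7 := (abs_le.1 (h1 d hd)).2
    have h8 := (abs_le.1 (h1 m hmT)).1
    linarith
  have hcard : T.card ≤ (Finset.range (⌊2 * Y / N⌋₊ + 1)).card := by
    have hsub : T ⊆ (Finset.range (⌊2 * Y / N⌋₊ + 1)).image fun k : ℕ => m + N * k := by
      intro d hd
      obtain ⟨k, e, hk⟩ := hk d hd
      rw [Finset.mem_image]
      exact ⟨k, Finset.mem_range.2 (by omega), e.symm⟩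
    exact (Finset.card_le_card hsub).trans Finset.card_image_le
  rw [Finset.card_range] at hcard
  have h9 : (⌊2 * Y / N⌋₊ : ℝ) ≤ 2 * Y / N := Nat.floor_le (by positivity)
  have h10 : (T.card : ℝ) ≤ (⌊2 * Y / N⌋₊ : ℝ) + 1 := by exact_mod_cast hcard
  linarith

theorem pf_RTS : T_RTS := by
  intro A Y S hA hY hS
  have hA' : (0 : ℝ) < A := by exact_mod_cast hA
  have h1 : ∑ d ∈ S, (rts A d : ℝ) = ∑ B ∈ Finset.range (2 * A),
      ((S.filter fun d => (4 * (A : ℤ)) ∣ (B : ℤ) ^ 2 - d).card : ℝ) := by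
    have h2 : ∑ d ∈ S, rts A d = ∑ B ∈ Finset.range (2 * A),
        (S.filter fun d => (4 * (A : ℤ)) ∣ (B : ℤ) ^ 2 - d).card := by
      unfold rts
      simp only [Finset.card_filter]
      exact Finset.sum_comm
    exact_mod_cast h2
  have h3 : ∀ B ∈ Finset.range (2 * A),
      ((S.filter fun d => (4 * (A : ℤ)) ∣ (B : ℤ) ^ 2 - d).card : ℝ) ≤ 2 * Y / (4 * A : ℕ) + 1 := by
    intro B _
    apply card_bound (by omega) hY
    · intro d hd
      exact hS d (Finset.mem_filter.1 hd).1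
    · intro d hd d' hd'
      have e1 := (Finset.mem_filter.1 hd).2
      have e2 := (Finset.mem_filter.1 hd').2
      have e3 := dvd_sub e2 e1
      have e4 : (B : ℤ) ^ 2 - d' - ((B : ℤ) ^ 2 - d) = d - d' := by ring
      rw [e4] at e3
      exact_mod_cast e3
  rw [h1]
  refine (Finset.sum_le_sum h3).trans ?_
  rw [Finset.sum_const, Finset.card_range, nsmul_eq_mul]
  push_cast
  apply le_of_eq
  field_simp
  ring

end Pool.Agent.H48.CF
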