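import Pool.Agent.H37.CF.Basic

set_option autoImplicit false

open NumberField
open scoped nonZeroDivisors

namespace Pool.Agent.H48.CF.CHGX

open Pool.Agent.H31.CN Pool.Agent.H95.CF Pool.Agent.H28.RC Pool.Agent.H37.CF
open Pool.Agent.H91.CF (ch npt npD xit xiD pit piD TrQ NRe NVc RQ nn rr ww fmD Fu)
open Pool.Agent.H24.Cls (Quad)

theorem sup_eq {G : Type} [CommGroup G] {f : ℕ} {H : ℕ → Subgroup G} (h1 : H 1 = ⊥)
    (hm : ∀ d₁ d₂ : ℕ, d₁ * d₂ ∣ f → d₁.Coprime d₂ →
        H (d₁ * d₂) = H d₁ ⊔ H d₂ ∧ Disjoint (H d₁) (H d₂)) :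
    ∀ d : ℕ, d ∣ f → Squarefree d → H d = ⨆ p ∈ d.primeFactors, H p := by
  intro d
  induction d using Nat.strong_induction_on with
  | _ d ih =>
    intro hd hsq
    rcases eq_or_ne d 1 with rfl | hd1
    · rw [h1, Nat.primeFactors_one]
      simp
    · have hp := Nat.minFac_prime hd1
      obtain ⟨d', hd'⟩ := Nat.minFac_dvd d
      obtain ⟨p, hpdef⟩ : ∃ p, p = d.minFac := ⟨_, rfl⟩
      rw [← hpdef] at hp hd'
      have hcop : Nat.Coprime p d' := by
        rw [hd'] at hsq
        exact Nat.coprime_of_squarefree_mul hsq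
      have hd'0 : 0 < d' := by
        apply Nat.pos_of_ne_zero
        rintro rfl
        rw [mul_zero] at hd'
        exact hsq.ne_zero hd'
      have hlt : d' < d := by
        rw [hd']
        calc d' = 1 * d' := (one_mul d').symm
          _ < p * d' := Nat.mul_lt_mul_of_pos_right hp.one_lt hd'0
      have hdvd : d' ∣ d := Dvd.intro_left p hd'.symm
      have e1 := (hm p d' (by rw [← hd']; exact hd) hcop).1
      have e2 := ih d' hlt (hdvd.trans hd) (hsq.squarefree_of_dvd hdvd)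
      have e3 : d.primeFactors = insert p d'.primeFactors := by
        rw [hd', hcop.primeFactors_mul, hp.primeFactors]
        rfl
      rw [e3, Finset.iSup_insert, ← e2, ← e1, ← hd']

theorem pf_HGX (hHSB : T_HSB) (hGRP : T_GRP) : T_HGX := by
  intro K _ _ D f G _ _ cl hIQ hf hRG
  obtain ⟨H, hcar, h1, hm⟩ := hHSB K D f G cl hIQ hf hRG
  obtain ⟨-, hg⟩ := hGRP K D f G cl hIQ hf hRG
  have hc : ∀ d, d ∣ f → Squarefree d → ((Nat.card (H d) : ℕ) : ℤ) =
      ∏ p ∈ d.primeFactors, npD f p D := by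
    intro d hd hsq
    have e : Nat.card (H d) = Nat.card (Hd K f cl d) :=
      congrArg (fun S : Set G => Nat.card S) (hcar d hd)
    rw [e]
    exact hg d hd hsq
  have hcp : ∀ p, p.Prime → p ∣ f → ((Nat.card (H p) : ℕ) : ℤ) = npD f p D := by
    intro p hp hpf
    have h2 := hc p hpf hp.squarefree
    rw [hp.primeFactors, Finset.prod_singleton] at h2
    exact h2
  refine ⟨fun p => Nat.card (H p), H, ⟨fun d hd _ => hcar d hd, sup_eq h1 hm, ?_⟩, hcp⟩
  intro d hd hsq
  have h2 := hc d hd hsq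
  have h3 : ∏ p ∈ d.primeFactors, npD f p D = ∏ p ∈ d.primeFactors, ((Nat.card (H p) : ℕ) : ℤ) :=
    Finset.prod_congr rfl fun p hp =>
      (hcp p (Nat.prime_of_mem_primeFactors hp) ((Nat.dvd_of_mem_primeFactors hp).trans hd)).symm
  rw [h3] at h2
  exact_mod_cast h2

end Pool.Agent.H48.CF.CHGX
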