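import Pool.Agent.H56.CF.Targets

set_option autoImplicit false

open NumberField Module
open scoped nonZeroDivisors

namespace Pool.Agent.H48.CF

open Pool.Agent.H56.CF

theorem pf_APR (hU : T_UNI) : T_APR := by
  intro K _ _ h2 hD σ J I k j j' α α' hk hjj hS hS'
  obtain ⟨ha, hspan, hlo, hup⟩ := hS
  obtain ⟨ha', hspan', hlo', hup'⟩ := hS'
  have hD2 : 2 < |discr K| := abs_discr_gt_two (by rw [h2]; norm_num)
  rw [abs_of_pos hD] at hD2
  have hD1 : (1 : ℝ) < √(discr K : ℝ) := by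
    rw [Real.lt_sqrt zero_le_one, one_pow]
    have h3 : (2 : ℝ) < (discr K : ℝ) := by exact_mod_cast hD2
    linarith
  obtain ⟨D, hDdef⟩ : ∃ D : ℝ, D = √(discr K : ℝ) := ⟨_, rfl⟩
  rw [← hDdef] at hlo hlo' hD1 ⊢
  obtain ⟨n, hn⟩ : ∃ n : ℝ, n = (Ideal.absNorm (I : Ideal (𝓞 K)) : ℝ) := ⟨_, rfl⟩
  have hn0 : 0 < n := by
    rw [hn]
    exact_mod_cast Ideal.absNorm_pos_of_nonZeroDivisors I
  rw [← hn] at hlo hlo' ⊢
  have hDpos : 0 < D := by linarith
  obtain ⟨lam, hlam⟩ : ∃ lam : ℝ, lam = Real.log (2 * D / n) := ⟨_, rfl⟩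
  have hel : n / (2 * D) = Real.exp (-lam) := by
    rw [Real.exp_neg, hlam, Real.exp_log (by positivity), inv_div]
  rw [← hlam]
  rw [hel] at hlo hlo'
  obtain ⟨u, hu⟩ : Associated α α' := Ideal.span_singleton_eq_span_singleton.1
    (hspan.symm.trans hspan')
  have hval : |σ (α' : K)| = |σ (α : K)| * |σ ((u : 𝓞 K) : K)| := by
    have e : ((α * (u : 𝓞 K) : 𝓞 K) : K) = (α : K) * ((u : 𝓞 K) : K) :=
      map_mul (algebraMap (𝓞 K) K) _ _
    rw [← hu, e, map_mul, abs_mul]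
  have hα : 0 < |σ (α : K)| := lt_of_lt_of_le (by positivity) hlo
  obtain ⟨x, hx⟩ : ∃ x : ℝ, x = |σ ((u : 𝓞 K) : K)| := ⟨_, rfl⟩
  rw [← hx] at hval
  have hx1 : Real.exp ((j' : ℝ) - j - lam) ≤ x := by
    have h3 : Real.exp j' * k * Real.exp (-lam) ≤ Real.exp j * k * x := by
      refine hlo'.trans ?_
      rw [hval]
      have hx0 : 0 ≤ x := by
        rw [hx]
        exact abs_nonneg _
      exact mul_le_mul_of_nonneg_right hup hx0
    have h4 : Real.exp ((j' : ℝ) - j - lam) = Real.exp j' * k * Real.exp (-lam) /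
        (Real.exp j * k) := by
      rw [sub_sub, Real.exp_sub, Real.exp_add, Real.exp_neg]
      field_simp
    rw [h4, div_le_iff₀ (by positivity)]
    linarith
  have hx2 : x ≤ Real.exp ((j' : ℝ) - j + lam) := by
    have hx0 : 0 ≤ x := by
      rw [hx]
      exact abs_nonneg _
    have h3 : Real.exp j * k * Real.exp (-lam) * x ≤ Real.exp j' * k := by
      refine le_trans ?_ hup'
      rw [hval]
      exact mul_le_mul_of_nonneg_right hlo hx0
    have h4 : Real.exp ((j' : ℝ) - j + lam) = Real.exp j' * k /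
        (Real.exp j * k * Real.exp (-lam)) := by
      rw [Real.exp_add, Real.exp_sub, Real.exp_neg]
      field_simp
    rw [h4, le_div_iff₀ (by positivity)]
    linarith
  rcases lt_trichotomy x 1 with h | h | h
  · right
    have hx0 : 0 < x := lt_of_lt_of_le (Real.exp_pos _) hx1
    have hinv : |σ (((u⁻¹ : (𝓞 K)ˣ) : 𝓞 K) : K)| = x⁻¹ := by
      have h5 : |σ ((u : 𝓞 K) : K)| * |σ (((u⁻¹ : (𝓞 K)ˣ) : 𝓞 K) : K)| = 1 := by
        have e : ((u : 𝓞 K) : K) * (((u⁻¹ : (𝓞 K)ˣ) : 𝓞 K) : K) = 1 := by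
          have e1 := map_mul (algebraMap (𝓞 K) K) (u : 𝓞 K) ((u⁻¹ : (𝓞 K)ˣ) : 𝓞 K)
          rw [Units.mul_inv, map_one] at e1
          exact e1.symm
        rw [← abs_mul, ← map_mul, e, map_one, abs_one]
      rw [← hx] at h5
      field_simp
      linarith
    have h6 := hU K h2 hD σ u⁻¹ (by
      rw [hinv]
      exact (one_lt_inv₀ hx0).2 h)
    rw [hinv, ← hDdef] at h6
    have h7 : x⁻¹ ≤ Real.exp (lam - ((j' : ℝ) - j)) := by
      have h8 : Real.exp (lam - ((j' : ℝ) - j)) = (Real.exp ((j' : ℝ) - j - lam))⁻¹ := by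
        rw [← Real.exp_neg]
        congr 1
        ring
      rw [h8]
      exact inv_anti₀ (Real.exp_pos _) hx1
    have h9 : Real.log (D - 1) ≤ lam - ((j' : ℝ) - j) := by
      rw [Real.log_le_iff_le_exp (by linarith)]
      exact h6.trans h7
    have h10 : (j : ℝ) < j' := by exact_mod_cast hjj
    linarith
  · left
    rw [h] at hx1
    have h5 := (Real.exp_le_one_iff.1 hx1)
    linarith
  · right
    have h6 := hU K h2 hD σ u (by rw [← hx]; exact h)
    rw [← hx, ← hDdef] at h6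
    rw [Real.log_le_iff_le_exp (by linarith)]
    exact h6.trans hx2

end Pool.Agent.H48.CF
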